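import Mathlib
import Pool.Agent.LQuasi.Main

/-!
A quasi-variety of lattice-ordered groups given by one quasi-identity whose variety has no finite
basis; the same relative to every class containing the metabelian totally ordered groups.
-/

set_option autoImplicit false

namespace Pool.Agent.Results.MP_a96036_al.NoFiniteBasis

universe u

/-- A lattice-ordered group: a group with a lattice order such that `x ≤ y` implies
`a x b ≤ a y b`. -/
structure LGroup : Type (u + 1) where
  /-- the underlying set -/
  carrier : Type u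
  /-- the group structure -/
  [group : Group carrier]
  /-- the lattice order -/
  [lattice : Lattice carrier]
  /-- compatibility -/
  mono : ∀ a b x y : carrier, x ≤ y → a * x * b ≤ a * y * b

attribute [instance] LGroup.group LGroup.lattice

/-- Terms in the signature of lattice-ordered groups. -/
inductive Term : Type
  | var (i : ℕ) : Term
  | e : Term
  | inv (t : Term) : Term
  | mul (s t : Term) : Term
  | meet (s t : Term) : Term
  | join (s t : Term) : Term

/-- The value of a term under an assignment of the variables. -/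
def Term.eval (G : LGroup.{u}) (v : ℕ → G.carrier) : Term → G.carrier
  | .var i => v i
  | .e => 1
  | .inv t => (t.eval G v)⁻¹
  | .mul s t => s.eval G v * t.eval G v
  | .meet s t => s.eval G v ⊓ t.eval G v
  | .join s t => s.eval G v ⊔ t.eval G v

/-- The equation `lhs = rhs` between two terms. -/
structure Equation : Type where
  /-- the left side -/
  lhs : Term
  /-- the right side -/
  rhs : Term

/-- The equation is true under the assignment `v`. -/
def Equation.TrueAt (s : Equation) (G : LGroup.{u}) (v : ℕ → G.carrier) : Prop :=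
  s.lhs.eval G v = s.rhs.eval G v

/-- The equation is an identity of `G`. -/
def Equation.Holds (s : Equation) (G : LGroup.{u}) : Prop :=
  ∀ v : ℕ → G.carrier, s.TrueAt G v

/-- A quasi-identity: finitely many premises and a conclusion. -/
structure QuasiIdentity : Type where
  /-- the premises -/
  premises : List Equation
  /-- the conclusion -/
  conclusion : Equation

/-- `G` satisfies the quasi-identity. -/
def QuasiIdentity.Holds (q : QuasiIdentity) (G : LGroup.{u}) : Prop :=
  ∀ v : ℕ → G.carrier, (∀ p ∈ q.premises, p.TrueAt G v) → q.conclusion.TrueAt G v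

/-- The variety defined by a set of identities. -/
def Variety (S : Set Equation) : Set LGroup.{u} := {G | ∀ s ∈ S, s.Holds G}

/-- The quasi-variety defined by a set of quasi-identities. -/
def QuasiVariety (Q : Set QuasiIdentity) : Set LGroup.{u} := {G | ∀ q ∈ Q, q.Holds G}

/-- The smallest variety containing `X`: the intersection of all varieties containing `X`. -/
def lvar (X : Set LGroup.{u}) : Set LGroup.{u} :=
  ⋂₀ {V | (∃ S : Set Equation, V = Variety S) ∧ X ⊆ V}

/-- `G` is totally ordered and metabelian (all commutators commute). -/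
def LGroup.MetabelianChain (G : LGroup.{u}) : Prop :=
  (∀ x y : G.carrier, x ≤ y ∨ y ≤ x) ∧
    ∀ a b c d : G.carrier, (a⁻¹ * b⁻¹ * a * b) * (c⁻¹ * d⁻¹ * c * d) =
      (c⁻¹ * d⁻¹ * c * d) * (a⁻¹ * b⁻¹ * a * b)

/-- The term `t⁻¹ s t`. -/
def Term.conj (s t : Term) : Term := .mul (.mul (.inv t) s) t

/-- The term `(a ∧ a^b (aa)⁻¹ ∧ (aaa) (a^b)⁻¹ ∧ (a^c)^b (a (a^c a^c))⁻¹) ∨ e`, where
`x^y = y⁻¹ x y`. -/
def Term.R (a b c : Term) : Term :=
  .join (.meet (.meet (.meet a (.mul (a.conj b) (.inv (.mul a a))))
    (.mul (.mul (.mul a a) a) (.inv (a.conj b))))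
    (.mul ((a.conj c).conj b) (.inv (.mul a (.mul (a.conj c) (a.conj c)))))) .e

/-- The quasi-identity `bc = cb → R(a,b,c) = e`. -/
def theQuasiIdentity : QuasiIdentity where
  premises := [⟨.mul (.var 1) (.var 2), .mul (.var 2) (.var 1)⟩]
  conclusion := ⟨Term.R (.var 0) (.var 1) (.var 2), .e⟩

/-! ### Auxiliary material -/

/-- Translation to the terms used in the construction. -/
def Term.tr : Term → LQuasi.T
  | .var i => .var i
  | .e => .one
  | .inv t => .inv t.tr
  | .mul s t => .mul s.tr t.tr
  | .meet s t => .inf s.tr t.tr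
  | .join s t => .sup s.tr t.tr

/-- The copy in the universe `u` of a lattice-ordered group. -/
@[reducible] def lift (G : Type) [Group G] [Lattice G] [MulLeftMono G] [MulRightMono G] :
    LGroup.{u} where
  carrier := ULift.{u} G
  mono a b x y h := by
    have h1 : x.down ≤ y.down := h
    have h2 : a.down * x.down ≤ a.down * y.down := mul_le_mul_right h1 a.down
    have h3 : a.down * x.down * b.down ≤ a.down * y.down * b.down := mul_le_mul_left h2 b.down
    exact h3

theorem eval_lift (G : Type) [Group G] [Lattice G] [MulLeftMono G] [MulRightMono G]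
    (v : ℕ → ULift.{u} G) (t : Term) :
    (t.eval (lift.{u} G) v).down = t.tr.eval (fun i => (v i).down) := by
  induction t with
  | var i => rfl
  | e => rfl
  | inv t ih => exact congrArg (fun x => x⁻¹) ih
  | mul s t ihs iht => exact congrArg₂ (fun x y => x * y) ihs iht
  | meet s t ihs iht => exact congrArg₂ (fun x y => x ⊓ y) ihs iht
  | join s t ihs iht => exact congrArg₂ (fun x y => x ⊔ y) ihs iht

theorem trueAt_lift (G : Type) [Group G] [Lattice G] [MulLeftMono G] [MulRightMono G]
    (v : ℕ → ULift.{u} G) (s : Equation) :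
    s.TrueAt (lift.{u} G) v ↔
      s.lhs.tr.eval (fun i => (v i).down) = s.rhs.tr.eval (fun i => (v i).down) := by
  unfold Equation.TrueAt
  rw [← eval_lift.{u} G v, ← eval_lift.{u} G v]
  exact ⟨fun h => congrArg ULift.down h, fun h => ULift.ext _ _ h⟩

/-- Failure of an equation in the lifted group, in terms of the group itself. -/
theorem not_holds_lift (G : Type) [Group G] [Lattice G] [MulLeftMono G] [MulRightMono G]
    (s : Equation) :
    ¬ s.Holds (lift.{u} G) ↔ ∃ w : ℕ → G, s.lhs.tr.eval w ≠ s.rhs.tr.eval w := by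
  unfold Equation.Holds
  constructor
  · intro h
    by_contra hcon
    push Not at hcon
    exact h (fun v => (trueAt_lift.{u} G v s).mpr (hcon _))
  · rintro ⟨w, hw⟩ h
    exact hw ((trueAt_lift.{u} G (fun i => ULift.up (w i)) s).mp (h _))

theorem eval_R_tr {G : Type} [Group G] [Lattice G] (v : ℕ → G) (a b c : Term) :
    (Term.R a b c).tr.eval v = LQuasi.RR (a.tr.eval v) (b.tr.eval v) (c.tr.eval v) := rfl

/-- The quasi-identity in a lifted group. -/
theorem quasi_lift (G : Type) [Group G] [Lattice G] [MulLeftMono G] [MulRightMono G]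
    (h : ∀ a b c : G, b * c = c * b → LQuasi.RR a b c = 1) :
    theQuasiIdentity.Holds (lift.{u} G) := by
  intro v hv
  have h1 := hv _ (List.mem_singleton.mpr rfl)
  rw [trueAt_lift] at h1 ⊢
  exact h _ _ _ h1

/-- The `n`-th power of a term. -/
def powTerm (t : Term) : ℕ → Term
  | 0 => .e
  | n + 1 => .mul (powTerm t n) t

/-- The identity `R(a,b,b^(k+1)) = e`. -/
def theIdentity (k : ℕ) : Equation :=
  ⟨Term.R (.var 0) (.var 1) (powTerm (.var 1) (k + 1)), .e⟩

theorem eval_powTerm (G : LGroup.{u}) (v : ℕ → G.carrier) (t : Term) (n : ℕ) :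
    (powTerm t n).eval G v = (t.eval G v) ^ n := by
  induction n with
  | zero => simp [powTerm, Term.eval]
  | succ n ih => simp [powTerm, Term.eval, ih, pow_succ]

theorem tr_powTerm {G : Type} [Group G] [Lattice G] (v : ℕ → G) (t : Term) (n : ℕ) :
    (powTerm t n).tr.eval v = (t.tr.eval v) ^ n := by
  induction n with
  | zero => simp [powTerm, Term.tr, LQuasi.T.eval]
  | succ n ih => simp [powTerm, Term.tr, LQuasi.T.eval, ih, pow_succ]

/-- The value of `R` only depends on the values of its arguments. -/
theorem eval_R_congr (G : LGroup.{u}) (v w : ℕ → G.carrier) (a b c a' b' c' : Term)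
    (ha : a.eval G v = a'.eval G w) (hb : b.eval G v = b'.eval G w)
    (hc : c.eval G v = c'.eval G w) : (Term.R a b c).eval G v = (Term.R a' b' c').eval G w := by
  simp only [Term.R, Term.conj, Term.eval, ha, hb, hc]

/-- Every group satisfying the quasi-identity satisfies all the identities. -/
theorem identity_of_quasi (G : LGroup.{u}) (h : theQuasiIdentity.Holds G) (k : ℕ) :
    (theIdentity k).Holds G := by
  intro v
  let w : ℕ → G.carrier := fun i => match i with | 0 => v 0 | 1 => v 1 | _ => (v 1) ^ (k + 1)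
  have h1 := h w ?_
  · refine Eq.trans ?_ h1
    exact eval_R_congr G v w _ _ _ _ _ _ rfl rfl (eval_powTerm G v (.var 1) (k + 1))
  · intro p hp
    have hp' : p = ⟨.mul (.var 1) (.var 2), .mul (.var 2) (.var 1)⟩ := List.mem_singleton.mp hp
    subst hp'
    exact (pow_succ' (v 1) (k + 1)).symm.trans (pow_succ (v 1) (k + 1))

theorem lift_SD (k : ℕ) : (lift.{u} (LQuasi.GK k)).MetabelianChain := by
  refine ⟨fun x y => le_total x.down y.down, fun a b c d => ?_⟩
  have key : ∀ x y : LQuasi.GK k, x.n = 0 → y.n = 0 → x * y = y * x := by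
    intro x y hx hy
    ext
    · simp [hx, hy]
    · simp only [LQuasi.SD.mul_r, hx, hy, (LQuasi.chiK k).map_zero]
      ring
  refine ULift.ext _ _ (key _ _ ?_ ?_)
  · change -a.down.n + -b.down.n + a.down.n + b.down.n = 0
    ring
  · change -c.down.n + -d.down.n + c.down.n + d.down.n = 0
    ring

theorem lift_GG (φ : (ℕ →₀ ℤ) →+ LQuasi.NS) :
    (lift.{u} (LQuasi.GG LQuasi.chiS φ)).MetabelianChain := by
  refine ⟨fun x y => le_total x.down y.down, fun a b c d => ?_⟩
  have key : ∀ x y : LQuasi.GG LQuasi.chiS φ, x.f = 0 → y.f = 0 → x * y = y * x := by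
    intro x y hx hy
    ext i j
    · simp only [LQuasi.GG.mul_r, hx, hy, map_zero, LQuasi.chiS.map_zero]
      ring
    · simp [hx, hy]
    · simp only [LQuasi.GG.mul_w, hx, hy, Finsupp.coe_zero, Pi.zero_apply]
      ring
  refine ULift.ext _ _ (key _ _ ?_ ?_)
  · change -a.down.f + -b.down.f + a.down.f + b.down.f = 0
    abel
  · change -c.down.f + -d.down.f + c.down.f + d.down.f = 0
    abel

/-- The smallest variety containing `X` satisfies the identities of `X`. -/
theorem holds_of_mem_lvar (X : Set LGroup.{u}) (s : Equation) (hs : ∀ G ∈ X, s.Holds G)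
    (G : LGroup.{u}) (hG : G ∈ lvar X) : s.Holds G := by
  have h := hG (Variety {s}) ⟨⟨{s}, rfl⟩, fun H hH t ht => by
    rw [Set.mem_singleton_iff] at ht
    subst ht
    exact hs H hH⟩
  exact h s rfl

/-- **Main theorem.** Let `K` be a class of lattice-ordered groups containing all metabelian
totally ordered groups, let `X` be the class of the members of `K` satisfying the quasi-identity
`bc = cb → R(a,b,c) = e`, and let `V` be any class between `X` and the variety generated by `X`.
Then `V` is not defined relative to `K` by a finite set of identities. -/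
theorem result (K : Set LGroup.{u}) (hK : ∀ G : LGroup.{u}, G.MetabelianChain → G ∈ K)
    (V : Set LGroup.{u}) (hXV : K ∩ QuasiVariety {theQuasiIdentity} ⊆ V)
    (hV : V ⊆ lvar (K ∩ QuasiVariety {theQuasiIdentity})) :
    ¬ ∃ S : Set Equation, S.Finite ∧ K ∩ V = K ∩ Variety S := by
  rintro ⟨S, hfin, hS⟩
  have h1 : ∀ k : ℕ, ∃ s ∈ S, ∃ w : ℕ → LQuasi.GK k,
      LQuasi.val w s.lhs.tr.comp ≠ LQuasi.val w s.rhs.tr.comp := by
    intro k
    by_contra hcon
    push Not at hcon
    have hmem : lift.{u} (LQuasi.GK k) ∈ K ∩ Variety S := by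
      refine ⟨hK _ (lift_SD k), fun s hs => ?_⟩
      by_contra hf
      obtain ⟨w, hw⟩ := (not_holds_lift.{u} (LQuasi.GK k) s).mp hf
      apply hw
      have := hcon s hs w
      rwa [LQuasi.val_comp, LQuasi.val_comp] at this
    rw [← hS] at hmem
    have h2 : (theIdentity k).Holds (lift.{u} (LQuasi.GK k)) :=
      holds_of_mem_lvar _ _ (fun G hG => identity_of_quasi G (hG.2 _ rfl) k) _ (hV hmem.2)
    refine (not_holds_lift.{u} (LQuasi.GK k) (theIdentity k)).mpr
      ⟨fun i => match i with | 0 => LQuasi.aK k | _ => LQuasi.bK k, ?_⟩ h2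
    intro h3
    apply LQuasi.fail k
    refine Eq.trans ?_ h3
    change _ = (Term.R (.var 0) (.var 1) (powTerm (.var 1) (k + 1))).tr.eval _
    rw [eval_R_tr, tr_powTerm]
    rfl
  have h2 : ∃ s ∈ S, ∀ᶠ k in (LQuasi.UU : Filter ℕ), ∃ w : ℕ → LQuasi.GK k,
      LQuasi.val w s.lhs.tr.comp ≠ LQuasi.val w s.rhs.tr.comp :=
    (Ultrafilter.eventually_exists_mem_iff hfin).mp (Filter.Eventually.of_forall h1)
  obtain ⟨s, hs, hev⟩ := h2
  obtain ⟨φ, w, hw⟩ := LQuasi.transfer (s.lhs.tr.comp, s.rhs.tr.comp) hev
  rw [LQuasi.val_comp, LQuasi.val_comp] at hw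
  have hGK : lift.{u} (LQuasi.GG LQuasi.chiS φ) ∈ K := hK _ (lift_GG φ)
  have hGX : lift.{u} (LQuasi.GG LQuasi.chiS φ) ∈ K ∩ QuasiVariety {theQuasiIdentity} := by
    refine ⟨hGK, fun q hq => ?_⟩
    rw [Set.mem_singleton_iff] at hq
    subst hq
    exact quasi_lift _ ((LQuasi.satQ_iff _).mp (LQuasi.satQ_GG φ))
  have hGV : lift.{u} (LQuasi.GG LQuasi.chiS φ) ∈ K ∩ Variety S := by
    rw [← hS]
    exact ⟨hGK, hXV hGX⟩
  exact (not_holds_lift.{u} (LQuasi.GG LQuasi.chiS φ) s).mpr ⟨w, hw⟩ (hGV.2 s hs)

end Pool.Agent.Results.MP_a96036_al.NoFiniteBasis
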